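import Mathlib

/-!
# Artin cones are not convex in general: the lemmas

For every level `r ≥ 1`, every number of variables `n ≥ 3 (r + 1)` and every `d ≥ 2 r + 1`
the Artin cone `A^r_{n,2d}` is not convex.

Idea: let `R` be Robinson's ternary sextic, `p = g(x,z)^2 h(y,z)^2 R(x,y,z)` with products of
linear forms `g`, `h`.  Then `p (x^2+y^2)` is a sum of squares, while `p` vanishes on all points
but one of a large grid, so that `p` is not a sum of squares.  The sum of `r + 1` copies of `p` in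
separate blocks of variables has no nonzero sum of squares multiplier of degree `2 r`:
restricting to zeros of the other copies shows that every square root in the multiplier vanishes
when one block is set to zero, so each of its monomials involves all `r + 1` blocks.
-/

namespace Pool.Agent.H18.ArtinCone

open MvPolynomial

lemma exists_of_isSumSq {R : Type*} [CommRing R] {F : R} (hF : IsSumSq F) :
    ∃ (N : ℕ) (h : Fin N → R), F = ∑ i, h i * h i := by
  induction hF with
  | zero => exact ⟨0, fun _ => 0, by simp⟩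
  | sq_add a hs ih =>
    obtain ⟨N, h, rfl⟩ := ih
    exact ⟨N+1, Fin.cons a h, by simp [Fin.sum_univ_succ]⟩

lemma eval_smul_of_isHomogeneous {σ : Type*} {f : MvPolynomial σ ℝ} {j : ℕ}
    (hf : f.IsHomogeneous j) (t : ℝ) (u : σ → ℝ) :
    eval (fun i => t * u i) f = t ^ j * eval u f := by
  rw [eval_eq, eval_eq, Finset.mul_sum]
  refine Finset.sum_congr rfl fun m hm => ?_
  have h1 : ∑ i ∈ m.support, m i = j := by
    by_contra hne
    exact (mem_support_iff.mp hm) (hf.coeff_eq_zero (by rwa [Finsupp.degree_apply]))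
  simp only [mul_pow, Finset.prod_mul_distrib]
  rw [Finset.prod_pow_eq_pow_sum, h1]
  ring

/-- the restriction of `f` to the line through `u`, as a univariate polynomial -/
noncomputable def U {σ : Type*} (f : MvPolynomial σ ℝ) (u : σ → ℝ) : Polynomial ℝ :=
  ∑ j ∈ Finset.range (f.totalDegree + 1),
    Polynomial.C (eval u (homogeneousComponent j f)) * Polynomial.X ^ j

lemma eval_U {σ : Type*} (f : MvPolynomial σ ℝ) (u : σ → ℝ) (t : ℝ) :
    (U f u).eval t = eval (fun i => t * u i) f := by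
  conv_rhs => rw [← sum_homogeneousComponent f]
  rw [map_sum, U, Polynomial.eval_finsetSum]
  refine Finset.sum_congr rfl fun j _ => ?_
  rw [eval_smul_of_isHomogeneous (homogeneousComponent_isHomogeneous j f)]
  rw [Polynomial.eval_mul, Polynomial.eval_C, Polynomial.eval_pow, Polynomial.eval_X]
  ring

lemma coeff_U {σ : Type*} (f : MvPolynomial σ ℝ) (u : σ → ℝ) (j : ℕ) :
    (U f u).coeff j = eval u (homogeneousComponent j f) := by
  rw [U, Polynomial.finsetSum_coeff]
  rw [Finset.sum_congr rfl fun k _ => Polynomial.coeff_C_mul_X_pow _ k j]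
  rw [Finset.sum_ite_eq]
  split_ifs with h
  · rfl
  · rw [homogeneousComponent_eq_zero, map_zero]
    simp only [Finset.mem_range, not_lt] at h
    omega

/-- the punctured grid lemma -/
lemma punctured (S T : Finset ℝ) (hS : (0:ℝ) ∈ S) (hT : (0:ℝ) ∈ T) (d : ℕ)
    (hd : d + 2 < S.card + T.card) (f : MvPolynomial (Fin 3) ℝ) (hf : f.totalDegree ≤ d)
    (h : ∀ a ∈ S, ∀ b ∈ T, (a ≠ 0 ∨ b ≠ 0) → eval ![a, b, 1] f = 0) :
    eval ![0, 0, 1] f = 0 := by
  classical
  have key : ∀ (S : Finset ℝ) (k : ℕ), k + 1 < S.card →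
      ∑ a ∈ S, (∏ j ∈ S.erase a, (a - j))⁻¹ * a ^ k = 0 := by
    intro S k hk
    have h1 := Lagrange.coeff_eq_sum (s := S) (v := (id : ℝ → ℝ)) (P := (Polynomial.X : Polynomial ℝ) ^ k)
      (Function.injective_id.injOn) (by
        rw [Polynomial.degree_X_pow]
        exact_mod_cast (by omega : k < S.card))
    rw [Polynomial.coeff_X_pow, if_neg (by omega)] at h1
    rw [h1]
    refine Finset.sum_congr rfl fun a _ => ?_
    simp [div_eq_mul_inv, mul_comm]
  set w : ℝ → ℝ := fun a => (∏ j ∈ S.erase a, (a - j))⁻¹ with hw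
  set w' : ℝ → ℝ := fun a => (∏ j ∈ T.erase a, (a - j))⁻¹ with hw'
  have hΛ : ∑ a ∈ S, ∑ b ∈ T, w a * w' b * eval ![a, b, 1] f = 0 := by
    simp only [eval_eq, Finset.mul_sum]
    have : ∀ a ∈ S, ∑ b ∈ T, ∑ m ∈ f.support, w a * w' b *
        (coeff m f * ∏ i ∈ m.support, (![a, b, 1] : Fin 3 → ℝ) i ^ m i) =
        ∑ m ∈ f.support, ∑ b ∈ T, w a * w' b *
        (coeff m f * ∏ i ∈ m.support, (![a, b, 1] : Fin 3 → ℝ) i ^ m i) := fun a _ =>
      Finset.sum_comm
    rw [Finset.sum_congr rfl this, Finset.sum_comm]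
    refine Finset.sum_eq_zero fun m hm => ?_
    have hprod : ∀ a b : ℝ, ∏ i ∈ m.support, (![a, b, 1] : Fin 3 → ℝ) i ^ m i
        = a ^ m 0 * b ^ m 1 := by
      intro a b
      rw [Finset.prod_subset (Finset.subset_univ m.support)]
      · simp [Fin.prod_univ_three]
      · intro i _ hi
        rw [Finsupp.notMem_support_iff.mp hi, pow_zero]
    have hdeg : m 0 + m 1 ≤ d := by
      have h2 := le_totalDegree hm
      have h3 : m.sum (fun _ e => e) = m 0 + m 1 + m 2 := by
        rw [Finsupp.sum_fintype _ _ (fun _ => rfl), Fin.sum_univ_three]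
      omega
    have hfac : ∑ a ∈ S, ∑ b ∈ T, w a * w' b * (coeff m f * ∏ i ∈ m.support, (![a, b, 1] : Fin 3 → ℝ) i ^ m i)
        = coeff m f * ((∑ a ∈ S, w a * a ^ m 0) * (∑ b ∈ T, w' b * b ^ m 1)) := by
      rw [Finset.sum_mul_sum, Finset.mul_sum]
      refine Finset.sum_congr rfl fun a _ => ?_
      rw [Finset.mul_sum]
      refine Finset.sum_congr rfl fun b _ => ?_
      rw [hprod]
      ring
    rw [hfac]
    by_cases h0 : m 0 + 1 < S.card
    · rw [key S _ h0]; simp
    · rw [key T (m 1) (by omega)]; simp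
  have h1 : ∑ a ∈ S, ∑ b ∈ T, w a * w' b * eval ![a, b, 1] f = w 0 * w' 0 * eval ![0, 0, 1] f := by
    rw [Finset.sum_eq_single (0:ℝ)]
    · rw [Finset.sum_eq_single (0:ℝ)]
      · intro b hb hb0
        rw [h 0 hS b hb (Or.inr hb0), mul_zero]
      · intro h; exact absurd hT h
    · intro a ha ha0
      refine Finset.sum_eq_zero fun b hb => ?_
      rw [h a ha b hb (Or.inl ha0), mul_zero]
    · intro h; exact absurd hS h
  have hw0 : w 0 ≠ 0 := by
    rw [hw]
    refine inv_ne_zero (Finset.prod_ne_zero_iff.mpr fun j hj => ?_)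
    rw [Finset.mem_erase] at hj
    simpa using hj.1
  have hw0' : w' 0 ≠ 0 := by
    rw [hw']
    refine inv_ne_zero (Finset.prod_ne_zero_iff.mpr fun j hj => ?_)
    rw [Finset.mem_erase] at hj
    simpa using hj.1
  rw [hΛ] at h1
  have := mul_ne_zero hw0 hw0'
  simpa [this] using h1.symm

lemma sum_mul_self_eq_zero {N : ℕ} (φ : Fin N → Polynomial ℝ) (h : ∑ b, φ b * φ b = 0) (b : Fin N) :
    φ b = 0 := by
  apply Polynomial.funext
  intro t
  have h1 : ∑ b, (φ b).eval t * (φ b).eval t = 0 := by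
    have := congrArg (Polynomial.eval t) h
    simpa [Polynomial.eval_finsetSum] using this
  have h2 := (Finset.sum_eq_zero_iff_of_nonneg (fun i _ => mul_self_nonneg _)).mp h1 b (Finset.mem_univ _)
  simpa using h2

/-- local vanishing -/
lemma local_vanish (S T : Finset ℝ) (hS : (0:ℝ) ∈ S) (hT : (0:ℝ) ∈ T) (d : ℕ)
    (hd : d + 2 < S.card + T.card) (p : MvPolynomial (Fin 3) ℝ) (hp : p.IsHomogeneous (2 * d))
    (hp0 : ∀ a ∈ S, ∀ b ∈ T, (a ≠ 0 ∨ b ≠ 0) → eval ![a, b, 1] p = 0)
    (hp1 : eval ![0, 0, 1] p ≠ 0) {N : ℕ} (G : Fin N → MvPolynomial (Fin 3) ℝ)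
    (Q : MvPolynomial (Fin 3) ℝ) (hG : p * Q = ∑ b, G b * G b) :
    eval (fun _ => 0) Q = 0 := by
  have h1 : ∀ u : Fin 3 → ℝ, ∑ b, U (G b) u * U (G b) u =
      Polynomial.C (eval u p) * Polynomial.X ^ (2 * d) * U Q u := by
    intro u
    apply Polynomial.funext
    intro t
    have h2 := congrArg (eval (fun i => t * u i)) hG
    rw [map_mul, eval_smul_of_isHomogeneous hp, map_sum] at h2
    simp only [Polynomial.eval_finsetSum, Polynomial.eval_mul, eval_U, Polynomial.eval_C,
      Polynomial.eval_pow, Polynomial.eval_X]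
    simp only [map_mul] at h2
    rw [← h2]
    ring
  have h2 : ∀ j, j ≤ d → ∀ b, eval ![0, 0, 1] (homogeneousComponent j (G b)) = 0 := by
    intro j hj b
    apply punctured S T hS hT d hd
    · exact (homogeneousComponent_isHomogeneous j (G b)).totalDegree_le.trans hj
    · intro a ha b' hb' hab
      have h3 := h1 ![a, b', 1]
      rw [hp0 a ha b' hb' hab, Polynomial.C_0, zero_mul, zero_mul] at h3
      rw [← coeff_U, sum_mul_self_eq_zero _ h3 b, Polynomial.coeff_zero]
  have h3 : ∀ b, ∃ ψ : Polynomial ℝ, U (G b) ![0, 0, 1] = Polynomial.X ^ (d + 1) * ψ := by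
    intro b
    have : (Polynomial.X ^ (d + 1) : Polynomial ℝ) ∣ U (G b) ![0, 0, 1] := by
      rw [Polynomial.X_pow_dvd_iff]
      intro j hj
      rw [coeff_U]
      exact h2 j (by omega) b
    exact this
  choose ψ hψ using h3
  have h4 := h1 ![0, 0, 1]
  have h5 : Polynomial.X ^ (2 * d) * (Polynomial.X ^ 2 * ∑ b, ψ b * ψ b) =
      Polynomial.X ^ (2 * d) * (Polynomial.C (eval ![0, 0, 1] p) * U Q ![0, 0, 1]) := by
    calc Polynomial.X ^ (2 * d) * (Polynomial.X ^ 2 * ∑ b, ψ b * ψ b)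
        = ∑ b, U (G b) ![0, 0, 1] * U (G b) ![0, 0, 1] := by
          rw [Finset.mul_sum, Finset.mul_sum]
          refine Finset.sum_congr rfl fun b _ => ?_
          rw [hψ b]; ring
      _ = _ := by rw [h4]; ring
  have h6 := mul_left_cancel₀ (pow_ne_zero _ Polynomial.X_ne_zero) h5
  have h7 := congrArg (Polynomial.eval 0) h6
  simp only [Polynomial.eval_mul, Polynomial.eval_pow, Polynomial.eval_X, Polynomial.eval_C, eval_U,
    zero_mul] at h7
  have h8 : eval (fun _ => (0:ℝ)) Q = 0 := by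
    have h9 : eval ![0, 0, 1] p * eval (fun _ : Fin 3 => (0:ℝ)) Q = 0 := by
      rw [← h7]; simp
    exact (mul_eq_zero.mp h9).resolve_left hp1
  exact h8

lemma natDegree_le_of_sum {N : ℕ} (φ : Fin N → Polynomial ℝ) (c : ℝ) (r : ℕ)
    (h : ∑ b, φ b * φ b = Polynomial.C c * Polynomial.X ^ (2 * r)) (b : Fin N) :
    (φ b).natDegree ≤ r := by
  by_contra hlt
  push Not at hlt
  set F : Polynomial ℝ := Polynomial.C c * Polynomial.X ^ (2 * r) with hF
  have hb0 : φ b ≠ 0 := by
    rintro h0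
    rw [h0] at hlt
    simp at hlt
  have hF0 : F ≠ 0 := by
    intro h0
    exact hb0 (sum_mul_self_eq_zero φ (by rw [h, h0]) b)
  have hdeg : F.degree < (φ b * φ b).degree := by
    rw [← Polynomial.natDegree_lt_natDegree_iff hF0, Polynomial.natDegree_mul hb0 hb0]
    have : F.natDegree ≤ 2 * r := Polynomial.natDegree_C_mul_X_pow_le _ _
    omega
  have ht := Polynomial.abs_div_tendsto_atTop_atTop_of_degree_gt (φ b * φ b) F hdeg hF0
  have h1 := (ht.eventually (Filter.eventually_gt_atTop 1)).exists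
  obtain ⟨t, ht1⟩ := h1
  have hle : (φ b * φ b).eval t ≤ F.eval t := by
    rw [← h, Polynomial.eval_finsetSum]
    refine Finset.single_le_sum (f := fun b => (φ b * φ b).eval t) (fun i _ => ?_) (Finset.mem_univ b)
    simp only [Polynomial.eval_mul]
    exact mul_self_nonneg _
  have hnn : 0 ≤ (φ b * φ b).eval t := by
    simp only [Polynomial.eval_mul]
    exact mul_self_nonneg _
  have hFt : 0 ≤ F.eval t := hnn.trans hle
  rw [abs_of_nonneg (div_nonneg hnn hFt)] at ht1
  have : (φ b * φ b).eval t / F.eval t ≤ 1 := div_le_one_of_le₀ hle hFt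
  linarith

lemma totalDegree_le_of_sum {σ : Type*} {N : ℕ} (ℓ : Fin N → MvPolynomial σ ℝ) (r : ℕ)
    (h : (∑ b, ℓ b * ℓ b).IsHomogeneous (2 * r)) (b : Fin N) : (ℓ b).totalDegree ≤ r := by
  have h0 : ∀ j, r < j → homogeneousComponent j (ℓ b) = 0 := by
    intro j hj
    apply MvPolynomial.funext
    intro u
    rw [← coeff_U, map_zero]
    have h1 : ∑ b, U (ℓ b) u * U (ℓ b) u =
        Polynomial.C (eval u (∑ b, ℓ b * ℓ b)) * Polynomial.X ^ (2 * r) := by
      apply Polynomial.funext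
      intro t
      have h2 := eval_smul_of_isHomogeneous h t u
      simp only [Polynomial.eval_finsetSum, Polynomial.eval_mul, eval_U, Polynomial.eval_C,
        Polynomial.eval_pow, Polynomial.eval_X]
      rw [mul_comm, ← h2]
      simp
    have h3 := natDegree_le_of_sum _ _ r h1 b
    exact Polynomial.coeff_eq_zero_of_natDegree_lt (lt_of_le_of_lt h3 hj)
  refine Finset.sup_le fun m hm => ?_
  by_contra hlt
  push Not at hlt
  have h1 := h0 _ hlt
  have h2 := congrArg (coeff m) h1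
  rw [coeff_homogeneousComponent, coeff_zero] at h2
  rw [if_pos] at h2
  · exact (mem_support_iff.mp hm) h2
  · rfl

/-- substituting polynomials of degree at most one does not raise the total degree -/
lemma totalDegree_aeval_le {σ τ : Type*} (g : σ → MvPolynomial τ ℝ) (hg : ∀ s, (g s).totalDegree ≤ 1)
    (f : MvPolynomial σ ℝ) : (aeval g f).totalDegree ≤ f.totalDegree := by
  rw [aeval_def, eval₂_eq]
  refine (totalDegree_finsetSum _ _).trans (Finset.sup_le fun m hm => ?_)
  refine (totalDegree_mul _ _).trans ?_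
  have h1 : (algebraMap ℝ (MvPolynomial τ ℝ) (coeff m f)).totalDegree = 0 := by
    rw [algebraMap_eq]; exact totalDegree_C _
  rw [h1, zero_add]
  refine (totalDegree_finsetProd _ _).trans ?_
  have h2 : ∑ i ∈ m.support, (g i ^ m i).totalDegree ≤ ∑ i ∈ m.support, m i := by
    refine Finset.sum_le_sum fun i _ => ?_
    refine (totalDegree_pow _ _).trans ?_
    calc m i * (g i).totalDegree ≤ m i * 1 := Nat.mul_le_mul_left _ (hg i)
      _ = m i := mul_one _
  exact h2.trans (le_totalDegree hm)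

/-- The grid `{-1, 0, 1, ..., e + 1}` -/
noncomputable def grid (e : ℕ) : Finset ℝ := (Finset.range (e + 3)).image (fun n : ℕ => (n : ℝ) - 1)

lemma card_grid (e : ℕ) : (grid e).card = e + 3 := by
  rw [grid, Finset.card_image_of_injective, Finset.card_range]
  intro a b h
  have : (a : ℝ) = b := by simpa using h
  exact_mod_cast this

lemma zero_mem_grid (e : ℕ) : (0 : ℝ) ∈ grid e := by
  rw [grid, Finset.mem_image]
  exact ⟨1, by simp, by simp⟩

/-- The multi-zero factor `∏_{s<e} (x - (s+2) z)`, in the variable `x = X i`. -/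
noncomputable def gfac (e : ℕ) (i : Fin 3) : MvPolynomial (Fin 3) ℝ :=
  ∏ s ∈ Finset.range e, (X i - C ((s : ℝ) + 2) * X 2)

/-- Robinson's form -/
noncomputable def robinson : MvPolynomial (Fin 3) ℝ :=
  X 0 ^ 6 + X 1 ^ 6 + X 2 ^ 6 - (X 0 ^ 4 * X 1 ^ 2 + X 0 ^ 4 * X 2 ^ 2 + X 1 ^ 4 * X 0 ^ 2
    + X 1 ^ 4 * X 2 ^ 2 + X 2 ^ 4 * X 0 ^ 2 + X 2 ^ 4 * X 1 ^ 2) + C 3 * (X 0 ^ 2 * X 1 ^ 2 * X 2 ^ 2)

noncomputable def pform (e f : ℕ) : MvPolynomial (Fin 3) ℝ :=
  gfac e 0 ^ 2 * gfac f 1 ^ 2 * robinson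

lemma gfac_isHomogeneous (e : ℕ) (i : Fin 3) : (gfac e i).IsHomogeneous e := by
  have := IsHomogeneous.prod (Finset.range e)
    (fun s : ℕ => ((X i - C ((s : ℝ) + 2) * X 2 : MvPolynomial (Fin 3) ℝ))) (fun _ => 1)
    (fun s _ => (isHomogeneous_X ℝ i).sub (isHomogeneous_C_mul_X _ 2))
  simpa [gfac] using this

lemma robinson_isHomogeneous : robinson.IsHomogeneous 6 := by
  unfold robinson
  have hx : ∀ (i : Fin 3) (k : ℕ), ((X i : MvPolynomial (Fin 3) ℝ) ^ k).IsHomogeneous k :=
    fun i k => isHomogeneous_X_pow i k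
  refine ((((hx 0 6).add (hx 1 6)).add (hx 2 6)).sub ?_).add ?_
  · exact ((((((hx 0 4).mul (hx 1 2)).add ((hx 0 4).mul (hx 2 2))).add ((hx 1 4).mul (hx 0 2))).add
      ((hx 1 4).mul (hx 2 2))).add ((hx 2 4).mul (hx 0 2))).add ((hx 2 4).mul (hx 1 2))
  · exact (((hx 0 2).mul (hx 1 2)).mul (hx 2 2)).C_mul 3

lemma pform_isHomogeneous (e f : ℕ) : (pform e f).IsHomogeneous (2 * (e + f + 3)) := by
  have h := (((gfac_isHomogeneous e 0).pow 2).mul ((gfac_isHomogeneous f 1).pow 2)).mul
    robinson_isHomogeneous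
  have h2 : e * 2 + f * 2 + 6 = 2 * (e + f + 3) := by ring
  rw [← h2]
  exact h

lemma eval_gfac (e : ℕ) (i : Fin 3) (u : Fin 3 → ℝ) :
    eval u (gfac e i) = ∏ s ∈ Finset.range e, (u i - ((s : ℝ) + 2) * u 2) := by
  simp [gfac, map_prod]

lemma pform_zero (e f : ℕ) (a : ℝ) (ha : a ∈ grid e) (b : ℝ) (hb : b ∈ grid f) (hab : a ≠ 0 ∨ b ≠ 0) :
    eval ![a, b, 1] (pform e f) = 0 := by
  rw [pform, map_mul, map_mul, map_pow, map_pow, eval_gfac, eval_gfac]
  simp only [grid, Finset.mem_image, Finset.mem_range] at ha hb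
  obtain ⟨k, hk, rfl⟩ := ha
  obtain ⟨l, hl, rfl⟩ := hb
  by_cases hk3 : 3 ≤ k
  · have : ∏ s ∈ Finset.range e, ((![(k:ℝ) - 1, (l:ℝ) - 1, 1] : Fin 3 → ℝ) 0 - ((s : ℝ) + 2) *
        (![(k:ℝ) - 1, (l:ℝ) - 1, 1] : Fin 3 → ℝ) 2) = 0 := by
      refine Finset.prod_eq_zero (i := k - 3) (Finset.mem_range.mpr (by omega)) ?_
      have h3 : ((k - 3 : ℕ) : ℝ) = (k : ℝ) - 3 := by
        rw [Nat.cast_sub hk3]; norm_num
      simp only [Matrix.cons_val_zero, Matrix.cons_val]
      rw [h3]; ring
    rw [this]; simp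
  by_cases hl3 : 3 ≤ l
  · have : ∏ s ∈ Finset.range f, ((![(k:ℝ) - 1, (l:ℝ) - 1, 1] : Fin 3 → ℝ) 1 - ((s : ℝ) + 2) *
        (![(k:ℝ) - 1, (l:ℝ) - 1, 1] : Fin 3 → ℝ) 2) = 0 := by
      refine Finset.prod_eq_zero (i := l - 3) (Finset.mem_range.mpr (by omega)) ?_
      have h3 : ((l - 3 : ℕ) : ℝ) = (l : ℝ) - 3 := by
        rw [Nat.cast_sub hl3]; norm_num
      simp only [Matrix.cons_val_one, Matrix.cons_val]
      rw [h3]; ring
    rw [this]; simp
  have hR : eval ![(k:ℝ) - 1, (l:ℝ) - 1, 1] robinson = 0 := by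
    simp only [robinson, map_add, map_sub, map_mul, map_pow, eval_X, eval_C, Matrix.cons_val_zero,
      Matrix.cons_val_one, Matrix.cons_val]
    have hk' : k = 0 ∨ k = 1 ∨ k = 2 := by omega
    have hl' : l = 0 ∨ l = 1 ∨ l = 2 := by omega
    rcases hk' with rfl | rfl | rfl <;> rcases hl' with rfl | rfl | rfl <;>
      first | (exfalso; revert hab; norm_num; done) | norm_num
  rw [hR]; simp

lemma pform_one (e f : ℕ) : eval ![0, 0, 1] (pform e f) ≠ 0 := by
  rw [pform, map_mul, map_mul, map_pow, map_pow, eval_gfac, eval_gfac]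
  refine mul_ne_zero (mul_ne_zero (pow_ne_zero _ ?_) (pow_ne_zero _ ?_)) ?_
  · refine Finset.prod_ne_zero_iff.mpr fun s _ => ?_
    simp only [Matrix.cons_val_zero, Matrix.cons_val]
    have : (0:ℝ) ≤ s := Nat.cast_nonneg s
    intro h; linarith
  · refine Finset.prod_ne_zero_iff.mpr fun s _ => ?_
    simp only [Matrix.cons_val_one, Matrix.cons_val]
    have : (0:ℝ) ≤ s := Nat.cast_nonneg s
    intro h; linarith
  · simp only [robinson, map_add, map_sub, map_mul, map_pow, eval_X, eval_C, Matrix.cons_val_zero,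
      Matrix.cons_val_one, Matrix.cons_val]
    norm_num

lemma robinson_mul : robinson * (X 0 ^ 2 + X 1 ^ 2) =
    (X 0 * X 2 * (X 0 ^ 2 - X 2 ^ 2)) ^ 2 + (X 1 * X 2 * (X 1 ^ 2 - X 2 ^ 2)) ^ 2
      + ((X 0 ^ 2 - X 1 ^ 2) * (X 0 ^ 2 + X 1 ^ 2 - X 2 ^ 2)) ^ 2 := by
  have h3 : (C 3 : MvPolynomial (Fin 3) ℝ) = 3 := by
    rw [show (3 : ℝ) = ((3 : ℕ) : ℝ) by norm_num, map_natCast]; norm_num
  rw [robinson, h3]
  ring

lemma eval_aeval' {σ τ : Type*} (g : σ → MvPolynomial τ ℝ) (w : τ → ℝ) (f : MvPolynomial σ ℝ) :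
    eval w (aeval g f) = eval (fun s => eval w (g s)) f := by
  induction f using MvPolynomial.induction_on with
  | C a => simp
  | add p q hp hq => simp only [map_add, hp, hq]
  | mul_X p s hp => simp only [map_mul, hp, aeval_X, eval_X]

/-- coordinate `c` of block `i` -/
def bk {n r : ℕ} (hn : 3 * (r + 1) ≤ n) (i : Fin (r + 1)) (c : Fin 3) : Fin n :=
  ⟨3 * i + c, by omega⟩

lemma bk_inj {n r : ℕ} (hn : 3 * (r + 1) ≤ n) {i j : Fin (r + 1)} {c c' : Fin 3}
    (h : bk hn i c = bk hn j c') : i = j ∧ c = c' := by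
  simp only [bk, Fin.mk.injEq] at h
  constructor
  · apply Fin.ext; omega
  · apply Fin.ext; omega

lemma block_vanish {n r : ℕ} (hn : 3 * (r + 1) ≤ n) (e f : ℕ) (q : MvPolynomial (Fin n) ℝ) {N : ℕ}
    (h : Fin N → MvPolynomial (Fin n) ℝ)
    (hF : (∑ i, rename (bk hn i) (pform e f)) * q = ∑ b, h b * h b)
    (i : Fin (r + 1)) (v : Fin n → ℝ) (hv : ∀ c, v (bk hn i c) = 0)
    (hv2 : ∀ j, j ≠ i → eval (fun c => v (bk hn j c)) (pform e f) = 0) : eval v q = 0 := by
  classical
  set g : Fin n → MvPolynomial (Fin 3) ℝ := fun s =>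
    if s = bk hn i 0 then X 0 else if s = bk hn i 1 then X 1 else if s = bk hn i 2 then X 2
    else C (v s) with hg
  have hg1 : ∀ c, g (bk hn i c) = X c := by
    intro c
    fin_cases c
    · simp [hg]
    · simp only [hg]
      rw [if_neg, if_pos]
      · rfl
      · rfl
      · intro hh; have := (bk_inj hn hh).2; revert this; decide
    · simp only [hg]
      rw [if_neg, if_neg, if_pos]
      · rfl
      · rfl
      · intro hh; have := (bk_inj hn hh).2; revert this; decide
      · intro hh; have := (bk_inj hn hh).2; revert this; decide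
  have hg2 : ∀ j, j ≠ i → ∀ c, g (bk hn j c) = C (v (bk hn j c)) := by
    intro j hj c
    simp only [hg]
    rw [if_neg, if_neg, if_neg]
    all_goals intro hh; exact hj (bk_inj hn hh).1
  have h1 : aeval g (∑ j, rename (bk hn j) (pform e f)) = pform e f := by
    rw [map_sum, Finset.sum_eq_single i]
    · rw [aeval_rename]
      have : (g ∘ bk hn i) = X := by funext c; exact hg1 c
      rw [this, aeval_X_left]; rfl
    · intro j _ hj
      rw [aeval_rename]
      have : (g ∘ bk hn j) = (algebraMap ℝ (MvPolynomial (Fin 3) ℝ)) ∘ (fun c => v (bk hn j c)) := by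
        funext c; exact hg2 j hj c
      rw [this, aeval_algebraMap_apply]
      have h3 := hv2 j hj
      rw [← coe_aeval_eq_eval] at h3
      rw [show (aeval fun c => v (bk hn j c)) (pform e f) = 0 from h3, map_zero]
    · intro hi; exact absurd (Finset.mem_univ i) hi
  have h2 := congrArg (aeval g) hF
  rw [map_mul, h1, map_sum] at h2
  simp only [map_mul] at h2
  have h3 := local_vanish (grid e) (grid f) (zero_mem_grid e) (zero_mem_grid f) (e + f + 3)
    (by rw [card_grid, card_grid]; omega) (pform e f) (pform_isHomogeneous e f)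
    (fun a ha b hb hab => pform_zero e f a ha b hb hab) (pform_one e f)
    (fun b => aeval g (h b)) (aeval g q) h2
  rw [eval_aeval'] at h3
  rw [← h3]
  congr 1
  congr 1
  funext s
  simp only [hg]
  split_ifs with h0 h1 h2
  · rw [h0, hv 0]; simp
  · rw [h1, hv 1]; simp
  · rw [h2, hv 2]; simp
  · simp

lemma free_blocks {n r : ℕ} (hn : 3 * (r + 1) ≤ n) (e f : ℕ) (he : r ≤ e + 1) (hf : r ≤ f + 1)
    (ℓ : MvPolynomial (Fin n) ℝ) (hℓ : ℓ.totalDegree ≤ r) (i : Fin (r + 1))
    (H : ∀ v : Fin n → ℝ, (∀ c, v (bk hn i c) = 0) →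
      (∀ j, j ≠ i → eval (fun c => v (bk hn j c)) (pform e f) = 0) → eval v ℓ = 0)
    (v : Fin n → ℝ) (hv : ∀ c, v (bk hn i c) = 0) (hz : ∀ j, j ≠ i → v (bk hn j 2) ≠ 0) :
    eval v ℓ = 0 := by
  classical
  set A : Fin n → Prop := fun s => (s : ℕ) / 3 ≠ i ∧ (s : ℕ) < 3 * (r + 1) ∧ (s : ℕ) % 3 ≠ 2 with hA
  set z : Fin n → ℝ := fun s => if h : 3 * ((s : ℕ) / 3) + 2 < n then v ⟨3 * ((s : ℕ) / 3) + 2, h⟩
    else 1 with hzdef
  have hzj : ∀ j : Fin (r + 1), ∀ c, z (bk hn j c) = v (bk hn j 2) := by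
    intro j c
    have h1 : ((bk hn j c : Fin n) : ℕ) / 3 = j := by
      simp only [bk]; omega
    have h2 : 3 * (j : ℕ) + 2 < n := by omega
    simp only [hzdef]
    rw [dif_pos (by rw [h1]; exact h2)]
    congr 1
    apply Fin.ext
    simp only [bk]
    have h22 : ((2 : Fin 3) : ℕ) = 2 := rfl
    omega
  set S : Fin n → Finset ℝ := fun s =>
    if A s then ((grid (if (s : ℕ) % 3 = 0 then e else f)).erase 0).image (fun a => a * z s)
    else (Finset.range (r + 1)).image (fun k : ℕ => (k : ℝ)) with hS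
  have hA_exists : ∀ s : Fin n, A s → ∃ j : Fin (r + 1), ∃ c : Fin 3, j ≠ i ∧ c ≠ 2 ∧ s = bk hn j c := by
    intro s hs
    obtain ⟨h1, h2, h3⟩ := hs
    refine ⟨⟨(s : ℕ) / 3, by omega⟩, ⟨(s : ℕ) % 3, by omega⟩, ?_, ?_, ?_⟩
    · intro hh; apply h1; rw [← hh]
    · intro hh; apply h3
      have := congrArg Fin.val hh
      simpa using this
    · apply Fin.ext
      simp only [bk]
      omega
  have hAi : ∀ c, ¬ A (bk hn i c) := by
    intro c hh
    apply hh.1
    simp only [bk]; omega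
  have hAj2 : ∀ j, ¬ A (bk hn j 2) := by
    intro j hh
    apply hh.2.2
    simp only [bk]
    have : ((2 : Fin 3) : ℕ) = 2 := rfl
    omega
  have hAj0 : ∀ j, j ≠ i → A (bk hn j 0) := by
    intro j hj
    have h0 : ((0 : Fin 3) : ℕ) = 0 := rfl
    refine ⟨?_, ?_, ?_⟩
    · simp only [bk]
      intro hh; apply hj; apply Fin.ext; omega
    · simp only [bk]; omega
    · simp only [bk]; omega
  have hAj1 : ∀ j, j ≠ i → A (bk hn j 1) := by
    intro j hj
    have h0 : ((1 : Fin 3) : ℕ) = 1 := rfl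
    refine ⟨?_, ?_, ?_⟩
    · simp only [bk]
      intro hh; apply hj; apply Fin.ext; omega
    · simp only [bk]; omega
    · simp only [bk]; omega
  set g : Fin n → MvPolynomial (Fin n) ℝ := fun s => if A s then X s else C (v s) with hg
  have hgeval : ∀ x : Fin n → ℝ, eval x (aeval g ℓ) = eval (fun s => if A s then x s else v s) ℓ := by
    intro x
    rw [eval_aeval']
    congr 2
    funext s
    simp only [hg]
    split_ifs <;> simp
  have hzero : aeval g ℓ = 0 := by
    apply eq_zero_of_eval_zero_at_prod_finset (aeval g ℓ) S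
    · intro s
      have hd : (aeval g ℓ).degreeOf s ≤ r := by
        refine (degreeOf_le_totalDegree _ _).trans ((totalDegree_aeval_le g ?_ ℓ).trans hℓ)
        intro s
        simp only [hg]
        split_ifs
        · exact (totalDegree_X s).le
        · rw [totalDegree_C]; exact Nat.zero_le 1
      refine lt_of_le_of_lt hd ?_
      simp only [hS]
      split_ifs with h1 h2
      · obtain ⟨j, c, hj, _, rfl⟩ := hA_exists s h1
        rw [Finset.card_image_of_injective, Finset.card_erase_of_mem (zero_mem_grid e), card_grid]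
        · omega
        · intro a b hab
          rw [hzj] at hab
          exact mul_right_cancel₀ (hz j hj) hab
      · obtain ⟨j, c, hj, _, rfl⟩ := hA_exists s h1
        rw [Finset.card_image_of_injective, Finset.card_erase_of_mem (zero_mem_grid f), card_grid]
        · omega
        · intro a b hab
          rw [hzj] at hab
          exact mul_right_cancel₀ (hz j hj) hab
      · rw [Finset.card_image_of_injective _ Nat.cast_injective, Finset.card_range]
        omega
    · intro x hx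
      rw [hgeval]
      apply H
      · intro c
        rw [if_neg (hAi c)]
        exact hv c
      · intro j hj
        have hx0 := hx (bk hn j 0)
        have hx1 := hx (bk hn j 1)
        simp only [hS] at hx0 hx1
        rw [if_pos (hAj0 j hj), hzj] at hx0
        rw [if_pos (hAj1 j hj), hzj] at hx1
        have hm0 : ((bk hn j 0 : Fin n) : ℕ) % 3 = 0 := by
          simp only [bk]
          have h0 : ((0 : Fin 3) : ℕ) = 0 := rfl
          omega
        have hm1 : ((bk hn j 1 : Fin n) : ℕ) % 3 = 1 := by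
          simp only [bk]
          have h0 : ((1 : Fin 3) : ℕ) = 1 := rfl
          omega
        rw [hm0, if_pos rfl, Finset.mem_image] at hx0
        rw [hm1, if_neg (by omega), Finset.mem_image] at hx1
        obtain ⟨a, ha, hxa⟩ := hx0
        obtain ⟨b, hb, hxb⟩ := hx1
        rw [Finset.mem_erase] at ha hb
        have h3 : (fun c => (fun s => if A s then x s else v s) (bk hn j c)) =
            fun c => v (bk hn j 2) * (![a, b, 1] : Fin 3 → ℝ) c := by
          funext c
          fin_cases c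
          · show (if A (bk hn j 0) then x (bk hn j 0) else v (bk hn j 0)) = _
            rw [if_pos (hAj0 j hj), ← hxa]
            simp [mul_comm]
          · show (if A (bk hn j 1) then x (bk hn j 1) else v (bk hn j 1)) = _
            rw [if_pos (hAj1 j hj), ← hxb]
            simp [mul_comm]
          · show (if A (bk hn j 2) then x (bk hn j 2) else v (bk hn j 2)) = _
            rw [if_neg (hAj2 j)]
            simp
        rw [h3, eval_smul_of_isHomogeneous (pform_isHomogeneous e f),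
          pform_zero e f a ha.2 b hb.2 (Or.inl ha.1), mul_zero]
  have h1 := hgeval v
  rw [hzero, map_zero] at h1
  rw [h1]
  congr 2
  funext s
  split_ifs <;> rfl

lemma mem_ideal_block {n r : ℕ} (hn : 3 * (r + 1) ≤ n) (ℓ : MvPolynomial (Fin n) ℝ) (i : Fin (r + 1))
    (H : ∀ v : Fin n → ℝ, (∀ c, v (bk hn i c) = 0) →
      (∀ j, j ≠ i → v (bk hn j 2) ≠ 0) → eval v ℓ = 0) :
    ∀ m ∈ ℓ.support, ∃ c, m (bk hn i c) ≠ 0 := by
  classical
  set g : Fin n → MvPolynomial (Fin n) ℝ := fun s => if (∃ c, s = bk hn i c) then 0 else X s with hg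
  have hzero : aeval g ℓ = 0 := by
    apply MvPolynomial.funext_set (s := fun s : Fin n => {x : ℝ | x ≠ 0})
    · intro s
      exact (Set.finite_singleton (0:ℝ)).infinite_compl
    · intro x hx
      rw [eval_aeval', map_zero]
      apply H
      · intro c
        simp only [hg]
        rw [if_pos ⟨c, rfl⟩, map_zero]
      · intro j hj
        simp only [hg]
        rw [if_neg]
        · rw [eval_X]
          exact hx _ (Set.mem_univ _)
        · rintro ⟨c, hc⟩
          exact hj (bk_inj hn hc).1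
  have hI : ℓ ∈ Ideal.span (X '' (Set.range (bk hn i)) : Set (MvPolynomial (Fin n) ℝ)) := by
    set I := Ideal.span (X '' (Set.range (bk hn i)) : Set (MvPolynomial (Fin n) ℝ)) with hIdef
    have hcomp : (Ideal.Quotient.mkₐ ℝ I).comp (aeval g) = Ideal.Quotient.mkₐ ℝ I := by
      apply MvPolynomial.algHom_ext
      intro s
      simp only [AlgHom.comp_apply, aeval_X, hg]
      split_ifs with hs
      · obtain ⟨c, rfl⟩ := hs
        rw [map_zero]
        symm
        rw [Ideal.Quotient.mkₐ_eq_mk, Ideal.Quotient.eq_zero_iff_mem]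
        exact Ideal.subset_span ⟨_, ⟨c, rfl⟩, rfl⟩
      · rfl
    have h1 := congrArg (fun φ => φ ℓ) hcomp
    simp only [AlgHom.comp_apply, hzero, map_zero] at h1
    rw [Ideal.Quotient.mkₐ_eq_mk] at h1
    exact Ideal.Quotient.eq_zero_iff_mem.mp h1.symm
  rw [mem_ideal_span_X_image] at hI
  intro m hm
  obtain ⟨s, ⟨c, rfl⟩, hs⟩ := hI m hm
  exact ⟨c, hs⟩

/-- Main nonmembership statement. -/
theorem no_multiplier {n r : ℕ} (hn : 3 * (r + 1) ≤ n) (e f : ℕ) (he : r ≤ e + 1) (hf : r ≤ f + 1)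
    (q : MvPolynomial (Fin n) ℝ) (hq : q.IsHomogeneous (2 * r)) (hq1 : IsSumSq q)
    (hq2 : IsSumSq ((∑ i, rename (bk hn i) (pform e f)) * q)) : q = 0 := by
  classical
  obtain ⟨N, ℓ, hℓ⟩ := exists_of_isSumSq hq1
  obtain ⟨N', h, hh⟩ := exists_of_isSumSq hq2
  have hdeg : ∀ a, (ℓ a).totalDegree ≤ r := fun a => totalDegree_le_of_sum ℓ r (hℓ ▸ hq) a
  have hvan : ∀ a (i : Fin (r + 1)) (v : Fin n → ℝ), (∀ c, v (bk hn i c) = 0) →
      (∀ j, j ≠ i → eval (fun c => v (bk hn j c)) (pform e f) = 0) → eval v (ℓ a) = 0 := by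
    intro a i v hv hv2
    have h1 := block_vanish hn e f q h hh i v hv hv2
    rw [hℓ, map_sum] at h1
    simp only [map_mul] at h1
    have h2 := (Finset.sum_eq_zero_iff_of_nonneg (fun i _ => mul_self_nonneg _)).mp h1 a
      (Finset.mem_univ _)
    simpa using h2
  have hall : ∀ a, ℓ a = 0 := by
    intro a
    have h1 : ∀ i, ∀ m ∈ (ℓ a).support, ∃ c, m (bk hn i c) ≠ 0 := fun i =>
      mem_ideal_block hn (ℓ a) i (free_blocks hn e f he hf (ℓ a) (hdeg a) i (hvan a i))
    by_contra hne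
    obtain ⟨m, hm⟩ := support_nonempty.mpr hne
    have h2 : ∀ i, ∃ c, m (bk hn i c) ≠ 0 := fun i => h1 i m hm
    choose c hc using h2
    have hinj : Function.Injective (fun i => bk hn i (c i)) := by
      intro i j hij
      exact (bk_inj hn hij).1
    have h3 : r + 1 ≤ m.sum (fun _ e => e) := by
      rw [Finsupp.sum_fintype _ _ (fun _ => rfl)]
      calc r + 1 = ∑ i : Fin (r + 1), 1 := by simp
        _ ≤ ∑ i : Fin (r + 1), m (bk hn i (c i)) :=
          Finset.sum_le_sum fun i _ => Nat.one_le_iff_ne_zero.mpr (hc i)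
        _ = ∑ s ∈ (Finset.univ.image (fun i => bk hn i (c i))), m s := by
          rw [Finset.sum_image (fun i _ j _ hij => hinj hij)]
        _ ≤ ∑ s, m s := Finset.sum_le_sum_of_subset (Finset.subset_univ _)
    have h4 := (le_totalDegree hm).trans (hdeg a)
    omega
  rw [hℓ]
  simp [hall]

lemma isSumSq_map {R S : Type*} [CommRing R] [CommRing S] (φ : R →+* S) {x : R} (hx : IsSumSq x) :
    IsSumSq (φ x) := by
  induction hx with
  | zero => simp
  | sq_add a hs ih =>
    rw [map_add, map_mul]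
    exact IsSumSq.sq_add _ ih

lemma isSumSq_sq {R : Type*} [CommRing R] (x : R) : IsSumSq (x ^ 2) := by
  rw [sq]; exact IsSumSq.mul_self x

/-- the multiplier used for `pform` -/
noncomputable def qform (k : ℕ) : MvPolynomial (Fin 3) ℝ := (X 0 ^ 2 + X 1 ^ 2) * (X 0 ^ k) ^ 2

lemma qform_isHomogeneous (k : ℕ) : (qform k).IsHomogeneous (2 * (k + 1)) := by
  have hx : ∀ (i : Fin 3) (k : ℕ), ((X i : MvPolynomial (Fin 3) ℝ) ^ k).IsHomogeneous k :=
    fun i k => isHomogeneous_X_pow i k
  have h := ((hx 0 2).add (hx 1 2)).mul ((hx 0 k).pow 2)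
  have h2 : 2 + k * 2 = 2 * (k + 1) := by ring
  rw [← h2]
  exact h

lemma qform_ne_zero (k : ℕ) : qform k ≠ 0 := by
  intro h
  have h1 := congrArg (eval (![1, 0, 0] : Fin 3 → ℝ)) h
  simp [qform] at h1

lemma qform_isSumSq (k : ℕ) : IsSumSq (qform k) :=
  ((isSumSq_sq _).add (isSumSq_sq _)).mul (isSumSq_sq _)

lemma pq_isSumSq (e f k : ℕ) : IsSumSq (pform e f * qform k) := by
  have h : pform e f * qform k = (gfac e 0) ^ 2 * (gfac f 1) ^ 2 * (X 0 ^ k) ^ 2 *
      (robinson * (X 0 ^ 2 + X 1 ^ 2)) := by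
    rw [pform, qform]; ring
  rw [h, robinson_mul]
  exact (((isSumSq_sq _).mul (isSumSq_sq _)).mul (isSumSq_sq _)).mul
    (((isSumSq_sq _).add (isSumSq_sq _)).add (isSumSq_sq _))

end Pool.Agent.H18.ArtinCone
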